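import Pool.Agent.X261.SM.Cls
import Pool.Agent.X261.TD.Sqf
import Pool.Agent.X261.TS.Ext

/-!
The size of the Selmer group, its divisible part, and averages.
-/

set_option autoImplicit false
set_option linter.all false

open Polynomial IsDedekindDomain WithZero
open scoped nonZeroDivisors Classical

namespace Pool.Agent.X261.SM

open Pool.Agent.X261.TW
open Pool.Agent.X261.TD
open Pool.Agent.TH943.HJ
open Pool.Agent.Y160
open Pool.Agent.TH115.GD (incl rs ak Sep Comp IsTower)
open Pool.Agent.X261.TS (graph)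

section inf

variable {K A : Type} [Field K] [CommRing A] [IsDedekindDomain A] [Algebra A K]
  [IsFractionRing A K] {F : K[X]} {ζ : K}

/-- If the Tate-Shafarevich group is zero and `J(K)` is divisible, the Selmer group is zero. -/
theorem inf_zero (hg : SQ.Good 2 ζ F) (hsha : SH.ShaTriv 2 2 A F)
    (hdiv : ∀ (n : ℕ) (x : SQ.Jac 2 F K), ∃ y, x = 2 ^ n • y) (m : ℕ)
    (c : (Sep K ≃ₐ[K] Sep K) → SQ.Jac 2 F (Sep K)) (hc : SQ.IsCoc 2 F c)
    (h2 : ∀ σ, 2 ^ m • c σ = 0)
    (hv : ∀ v : HeightOneSpectrum A, SQ.LocTriv 2 F (Comp A K v) (Sep (Comp A K v)) c) :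
    ∃ (R : SQ.Jac 2 F (Sep K)), 2 ^ m • R = 0 ∧ ∀ σ, c σ = SQ.jm 2 F (rs K σ) R - R := by
  obtain ⟨P, hP⟩ := hsha c hc ⟨m, 0, fun σ => by rw [h2, map_zero, sub_zero]⟩ hv
  have hfix : ∀ τ : Sep K ≃ₐ[K] Sep K, SQ.jm 2 F (rs K τ) (2 ^ m • P) = 2 ^ m • P := by
    intro τ
    have h1 := h2 τ
    rw [hP, smul_sub, sub_eq_zero] at h1
    rw [map_nsmul]
    exact h1
  obtain ⟨x, hx⟩ := SQ.fixed_class (K := K) (E := K) (Ω := Sep K) SQ.hyps hg (2 ^ m • P) hfix
  obtain ⟨y, hy⟩ := hdiv m x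
  refine ⟨P - SQ.jm 2 F (incl K K (Sep K)) y, ?_, fun σ => ?_⟩
  · rw [smul_sub, ← map_nsmul, ← hy, hx, sub_self]
  · have h3 : SQ.jm 2 F (rs K σ) (SQ.jm 2 F (incl K K (Sep K)) y) =
        SQ.jm 2 F (incl K K (Sep K)) y := by
      rw [SQ.jm_jm]
      congr 2
      exact AlgHom.ext fun x => (rs K σ).commutes x
    rw [hP, map_sub, h3]
    abel

end inf

section good

variable {k K : Type} [Field k] [Field K] [Algebra k[X] K] [IsFractionRing k[X] K] {f D : k[X]}

theorem prim_neg_one (h2 : (2 : k) ≠ 0) : IsPrimitiveRoot (-1 : k) 2 := by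
  refine IsPrimitiveRoot.mk_of_lt _ (by norm_num) (by ring) fun l hl0 hl2 => ?_
  have : l = 1 := by omega
  subst this
  rw [pow_one]
  intro h
  apply h2
  linear_combination -h

theorem good (hm : f.Monic) (hd : f.natDegree = 3) (h2 : (2 : k) ≠ 0) (hder : derivative f ≠ 0)
    (hD : D ≠ 0) : SQ.Good 2 (algebraMap k[X] K (C (-1)))
      (((graph f).scaleRoots D).map (algebraMap k[X] K)) := by
  have hn : 0 < f.natDegree := by omega
  have hp2 : Nat.Prime 2 := Nat.prime_two
  obtain ⟨k', F, _, _, _, _, _, _, hT⟩ := TS.exists_tower k K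
  have hmG := TS.monic_graph hm hn
  have hcop : (2 : ℕ).Coprime (graph f).natDegree := by
    rw [TS.natDegree_graph, hd]
    decide
  have hirrF := TS.irrF hT hp2 (TS.tower_graph 2 f) hmG
  have hirrK : Irreducible ((graph f).map (algebraMap k[X] K)) :=
    Polynomial.Monic.irreducible_of_irreducible_map (algebraMap K F) _ (hmG.map _) hirrF
  have hsep : ((graph f).map (algebraMap k[X] K)).Separable := by
    rw [separable_iff_derivative_ne_zero hirrK, derivative_map]
    unfold graph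
    rw [derivative_sub, derivative_C, sub_zero, derivative_map, Polynomial.map_map]
    rw [Polynomial.map_ne_zero_iff]
    · exact hder
    · exact (IsFractionRing.injective k[X] K).comp C_injective
  have hDK : algebraMap k[X] K D ≠ 0 := fun h0 => hD (IsFractionRing.injective k[X] K
    (by rw [h0, map_zero]))
  have hscale : ((graph f).scaleRoots D).map (algebraMap k[X] K) =
      ((graph f).map (algebraMap k[X] K)).scaleRoots (algebraMap k[X] K D) :=
    map_scaleRoots (graph f) D (algebraMap k[X] K) (by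
      rw [hmG.leadingCoeff, map_one]
      exact one_ne_zero)
  have hmonS : ((graph f).scaleRoots D).Monic := (monic_scaleRoots_iff D).2 hmG
  have hcopS : (2 : ℕ).Coprime ((graph f).scaleRoots D).natDegree := by
    rwa [natDegree_scaleRoots]
  have hsepS : (((graph f).scaleRoots D).map (algebraMap k[X] K)).Separable := by
    rw [hscale]
    exact TS.sep_scale hDK hsep
  exact (SH.good_of hp2 (Nat.succ_pos 0) (pow_one 2).symm hT (prim_neg_one h2) hmonS hcopS hsepS).1

/-- The Selmer group at `2 ^ ∞` of the twists by products of inert primes. -/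
theorem inf_inert (hm : f.Monic) (hd : f.natDegree = 3) (h2 : (2 : k) ≠ 0)
    (hder : derivative f ≠ 0) (hD : D ≠ 0)
    (hin : ∀ P : k[X], Irreducible P → P ∣ D → Irreducible (P.comp f)) (m : ℕ)
    (c : (Sep K ≃ₐ[K] Sep K) →
      SL.Jac 2 (((graph f).scaleRoots D).map (algebraMap k[X] K)) (Sep K))
    (hc : SL.IsCoc 2 (((graph f).scaleRoots D).map (algebraMap k[X] K)) c)
    (hc2 : ∀ σ, 2 ^ m • c σ = 0)
    (hv : ∀ v : HeightOneSpectrum k[X],
      SL.LocTriv 2 (((graph f).scaleRoots D).map (algebraMap k[X] K)) (Comp k[X] K v)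
        (Sep (Comp k[X] K v)) c) :
    ∃ (R : SL.Jac 2 (((graph f).scaleRoots D).map (algebraMap k[X] K)) (Sep K)),
      2 ^ m • R = 0 ∧ SL.IsCobOf 2 (((graph f).scaleRoots D).map (algebraMap k[X] K)) c R := by
  have hcop : (2 : ℕ).Coprime f.natDegree := by
    rw [hd]
    decide
  have hζ : IsPrimitiveRoot (-1 : k) (2 ^ (0 + 1)) := by
    rw [zero_add, pow_one]
    exact prim_neg_one h2
  obtain ⟨h1, h3⟩ := TS.line_res (K := K) Nat.prime_two hζ hm hcop hder hD hin
  have e : (2 : ℕ) ^ (0 + 1) = 2 := by norm_num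
  rw [e] at h1 h3
  exact inf_zero (A := k[X]) (good hm hd h2 hder hD)
    (fun c hc hp hv => h1 c ⟨hc.lc, hc.mul⟩ hp hv) h3 m c ⟨hc.lc, hc.mul⟩ hc2 hv

end good

section avg

variable {k : Type} [Field k] [Finite k] {f : k[X]}

theorem sum_le (hd : f.natDegree = 3) {N : ℕ} {I : k[X] → ℕ}
    (hI : ∀ P ∈ irr k N, I P ≤ 2 ^ ((primes (P.comp f)).card - 1)) :
    ∑ P ∈ (irr_finite (k := k) N).toFinset, I P ≤ 2 * (irr k N).ncard := by
  have h1 := sum_ones (f := f) hd N
  have h3 : ∑ P ∈ (irr_finite (k := k) N).toFinset, I P ≤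
      ∑ P ∈ (irr_finite (k := k) N).toFinset, (1 + (ones f P).card) := by
    refine Finset.sum_le_sum fun P hP => ?_
    rw [Set.Finite.mem_toFinset] at hP
    exact (hI P hP).trans (two_pow_le hd hP.1 hP.2.1)
  rw [Finset.sum_add_distrib, Finset.sum_const, smul_eq_mul, mul_one,
    ← Set.ncard_eq_toFinset_card _ (irr_finite N)] at h3
  omega

theorem large_le (hd : f.natDegree = 3) {N : ℕ} {T : Set k[X]}
    (hT : ∀ P ∈ T, P ∈ irr k N ∧ 2 < 2 ^ ((primes (P.comp f)).card - 1)) :
    2 * T.ncard ≤ {P ∈ irr k N | Irreducible (P.comp f)}.ncard := by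
  refine le_trans (Nat.mul_le_mul_left 2 (Set.ncard_le_ncard ?_ ((irr_finite N).subset
    fun P hP => hP.1))) (count_three hd N)
  intro P hP
  obtain ⟨hP1, hP2⟩ := hT P hP
  refine ⟨hP1, ?_⟩
  by_contra h3
  have h4 : (primes (P.comp f)).card - 1 ≤ 1 := by omega
  have h5 := Nat.pow_le_pow_right (n := 2) two_pos h4
  omega

theorem sqf_le (hd : f.natDegree = 3) {n : ℕ} {I : k[X] → ℕ}
    (hI : ∀ D ∈ sqf k n, I D ≤ 2 ^ ∑ P ∈ primes D, ((primes (P.comp f)).card - 1)) :
    ∑ D ∈ (sqf_finite (k := k) n).toFinset, I D ≤ (n + 1) * Nat.card k ^ n := by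
  refine le_trans ?_ (card_trip_le (k := k) (f := f) hd n)
  rw [card_trip]
  refine Finset.sum_le_sum fun D hD => ?_
  rw [Set.Finite.mem_toFinset] at hD
  refine (hI D hD).trans ?_
  rw [← Finset.prod_pow_eq_pow_sum]
  refine Finset.prod_le_prod' fun P hP => ?_
  have hP' := pset_primes hD.1.ne_zero P hP
  exact two_pow_le hd hP'.1 hP'.2

omit [Finite k] in
theorem pow_le_four (hd : f.natDegree = 3) {P : k[X]} (hPm : P.Monic) (hP : Irreducible P) :
    2 ^ ((primes (P.comp f)).card - 1) ≤ 4 := by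
  have h3 := card_split (f := f) hd hPm hP
  have h4 := ones_le f P
  have h5 : (primes (P.comp f)).card - 1 ≤ 2 := by omega
  have h6 := Nat.pow_le_pow_right (n := 2) two_pos h5
  omega

end avg

end Pool.Agent.X261.SM
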