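import Pool.Agent.X261.SM.Two
import Pool.Agent.X261.TS.Res
import Pool.Agent.X261.TD.Cls
import Pool.Agent.X261.TW.Main

/-!
The functions attached to the elements of the Selmer group.
-/

set_option autoImplicit false
set_option linter.all false

open Polynomial IsDedekindDomain WithZero
open scoped nonZeroDivisors Classical

namespace Pool.Agent.X261.SM

open Pool.Agent.Y160.SE (IsPw)
open Pool.Agent.Y228.FT
open Pool.Agent.X261.TW
open Pool.Agent.X261.TD
open Pool.Agent.TH943.HJ (primes mem_primes)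

section val

variable {k L : Type} [Field k] [Field L] [Algebra k[X] L] [IsFractionRing k[X] L]

theorem even_mult {Q h : k[X]} (hQ : Irreducible Q) (h0 : h ≠ 0)
    (hv : IsPw 2 ((vpr hQ.prime).intValuation h)) : Even (multiplicity Q h) := by
  obtain ⟨c, hc, hnd⟩ := (fin_mult hQ h0).exists_eq_pow_mul_and_not_dvd
  generalize multiplicity Q h = n at *
  rw [hc, map_mul, map_pow, vpr_self, (vpr_eq_one hQ.prime c).2 hnd, mul_one, ← exp_nsmul] at hv
  have e : n • (-1 : ℤ) = -(n : ℤ) := by
    rw [nsmul_eq_mul]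
    ring
  rw [e] at hv
  exact even_iff_two_dvd.2 (isPw_exp two_ne_zero hv)

theorem exists_poly {A : k[X]} {z : L} (hz : z ≠ 0)
    (hv : ∀ v : HeightOneSpectrum k[X], A ∉ v.asIdeal → IsPw 2 (v.valuation L z)) :
    ∃ h s : k[X], h ≠ 0 ∧ s ≠ 0 ∧ z * algebraMap k[X] L s ^ 2 = algebraMap k[X] L h ∧
      EvenOff A h := by
  obtain ⟨a, s, hs, e⟩ := exists_frac (k := k) L z
  have hsL : algebraMap k[X] L s ≠ 0 := (map_ne_zero_iff _ (inj_frac L)).2 hs
  have e1 : z * algebraMap k[X] L s ^ 2 = algebraMap k[X] L (a * s) := by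
    rw [map_mul, ← e]
    ring
  have h0 : a * s ≠ 0 := by
    intro h
    rw [h, map_zero] at e1
    exact mul_ne_zero hz (pow_ne_zero 2 hsL) e1
  refine ⟨a * s, s, h0, hs, e1, evenOff_of h0 fun Q hQ hnd => even_mult hQ h0 ?_⟩
  have e2 : (vpr hQ.prime).intValuation (a * s) =
      (vpr hQ.prime).valuation L (algebraMap k[X] L (a * s)) :=
    ((vpr hQ.prime).valuation_of_algebraMap (a * s)).symm
  rw [e2, ← e1, map_mul, map_pow]
  refine IsPw.mul (hv _ fun hm => hnd ?_) (IsPw.self _)
  exact Ideal.mem_span_singleton.1 hm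

theorem exists_poly_cov {A : k[X]} {z : Cov k} (hz : z ≠ 0)
    (hv : ∀ v : HeightOneSpectrum k[X], A ∉ v.asIdeal → IsPw 2 (v.valuation (Cov k) z)) :
    ∃ h s : k[X], h ≠ 0 ∧ s ≠ 0 ∧
      z * algebraMap k[X] (Cov k) s ^ 2 = algebraMap k[X] (Cov k) h ∧ EvenOff A h :=
  exists_poly hz hv

theorem norm_cov {K : Type} [Field K] [Algebra K (Cov k)] {z : Cov k} {h s : k[X]} {y : K}
    (e : z * algebraMap k[X] (Cov k) s ^ 2 = algebraMap k[X] (Cov k) h)
    (hy : Algebra.norm K z = y ^ 2) :
    ∃ y' : K, Algebra.norm K (algebraMap k[X] (Cov k) h) = y' ^ 2 :=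
  ⟨y * Algebra.norm K (algebraMap k[X] (Cov k) s), by rw [← e, map_mul, map_pow, hy, mul_pow]⟩

end val

section copy

/-- A copy of the ring of the polynomials in `x`. -/
def Rg (k : Type) [Field k] : Type := k[X]

/-- A copy of the field of the functions in `x`. -/
def Nt (k : Type) [Field k] : Type := Cov k

variable {k : Type} [Field k]

noncomputable instance : CommRing (Rg k) := inferInstanceAs (CommRing k[X])

instance : IsDomain (Rg k) := inferInstanceAs (IsDomain k[X])

instance : IsDedekindDomain (Rg k) := inferInstanceAs (IsDedekindDomain k[X])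

noncomputable instance : Field (Nt k) := inferInstanceAs (Field (Cov k))

noncomputable instance : Algebra (Rg k) (Nt k) := inferInstanceAs (Algebra k[X] (Cov k))

instance : IsFractionRing (Rg k) (Nt k) := inferInstanceAs (IsFractionRing k[X] (Cov k))

end copy

open Pool.Agent.Y160
open Pool.Agent.Y160.SQ (Jac jm IsCoc LocTriv Good Rt Tor chi hyps lhyps)
open Pool.Agent.TH115.GD (incl rs ak Sep Comp IsTower)
open Pool.Agent.X261.TS (graph)

/-- The cocycles which represent the elements of the Selmer group at two. -/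
structure IsSel (A : Type) {K : Type} [CommRing A] [IsDedekindDomain A] [Field K] [Algebra A K]
    [IsFractionRing A K] (F : K[X]) (c : (Sep K ≃ₐ[K] Sep K) → Jac 2 F (Sep K)) : Prop where
  coc : IsCoc 2 F c
  two : ∀ σ, 2 • c σ = 0
  loc : ∀ v : HeightOneSpectrum A, LocTriv 2 F (Comp A K v) (Sep (Comp A K v)) c

section lift

variable {k : Type} [Field k]

theorem eval_lift (f r : k[X]) :
    eval₂ (compRingHom f : k[X] →+* k[X]) X (r.map C) = r := by
  rw [eval₂_map]
  have e : (compRingHom f : k[X] →+* k[X]).comp C = C := RingHom.ext fun x => by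
    show (C x).comp f = C x
    rw [C_comp]
  rw [e]
  exact eval₂_C_X

theorem eval_graph (f : k[X]) :
    eval₂ (compRingHom f : k[X] →+* k[X]) X (graph f) = 0 := by
  unfold graph
  rw [eval₂_sub, eval₂_C, eval_lift]
  show f - X.comp f = 0
  rw [X_comp, sub_self]

end lift

section main

variable {k K : Type} [Field k] [Field K] [Algebra k[X] K] [IsFractionRing k[X] K] {f D : k[X]}

theorem classes (hm : f.Monic) (hd : f.natDegree = 3) (h2 : (2 : k) ≠ 0) (hder : derivative f ≠ 0)
    (hD : D ≠ 0) :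
    ∃ (V : Finset k[X]) (Φ : ((Sep K ≃ₐ[K] Sep K) →
        Jac 2 (((graph f).scaleRoots D).map (algebraMap k[X] K)) (Sep K)) → Finset k[X]),
      V.card ≤ ∑ P ∈ primes D, ((primes (P.comp f)).card - 1) ∧ (∀ c, Φ c ⊆ V) ∧
      ∀ c c', IsSel k[X] _ c → IsSel k[X] _ c' → Φ c = Φ c' →
        ∃ R : Jac 2 (((graph f).scaleRoots D).map (algebraMap k[X] K)) (Sep K),
          2 • R = 0 ∧ ∀ σ, c σ - c' σ = jm 2 _ (rs K σ) R - R := by
  -- the polynomials
  have hn : 0 < f.natDegree := by omega
  have hp2 : Nat.Prime 2 := Nat.prime_two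
  have hζ : IsPrimitiveRoot (-1 : k) 2 := by
    refine IsPrimitiveRoot.mk_of_lt _ (by norm_num) (by ring) fun l hl0 hl2 => ?_
    have : l = 1 := by omega
    subst this
    rw [pow_one]
    intro h
    apply h2
    linear_combination -h
  obtain ⟨k', F, _, _, _, _, _, _, hT⟩ := TS.exists_tower k K
  have hmG := TS.monic_graph hm hn
  have hcop : (2 : ℕ).Coprime (graph f).natDegree := by
    rw [TS.natDegree_graph, hd]
    decide
  have hirrF := TS.irrF hT hp2 (TS.tower_graph 2 f) hmG
  have hirrK : Irreducible ((graph f).map (algebraMap k[X] K)) :=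
    Polynomial.Monic.irreducible_of_irreducible_map (algebraMap K F) _ (hmG.map _) hirrF
  have hsep : ((graph f).map (algebraMap k[X] K)).Separable := by
    rw [separable_iff_derivative_ne_zero hirrK, derivative_map]
    unfold graph
    rw [derivative_sub, derivative_C, sub_zero, derivative_map, Polynomial.map_map]
    rw [Polynomial.map_ne_zero_iff]
    · exact hder
    · exact (IsFractionRing.injective k[X] K).comp C_injective
  have hDK : algebraMap k[X] K D ≠ 0 := fun h0 => hD (IsFractionRing.injective k[X] K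
    (by rw [h0, map_zero]))
  have hscale : ((graph f).scaleRoots D).map (algebraMap k[X] K) =
      ((graph f).map (algebraMap k[X] K)).scaleRoots (algebraMap k[X] K D) :=
    map_scaleRoots (graph f) D (algebraMap k[X] K) (by
      rw [hmG.leadingCoeff, map_one]
      exact one_ne_zero)
  have hmonS : ((graph f).scaleRoots D).Monic := (monic_scaleRoots_iff D).2 hmG
  have hcopS : (2 : ℕ).Coprime ((graph f).scaleRoots D).natDegree := by
    rwa [natDegree_scaleRoots]
  have hsepS : (((graph f).scaleRoots D).map (algebraMap k[X] K)).Separable := by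
    rw [hscale]
    exact TS.sep_scale hDK hsep
  have hirrKS : Irreducible (((graph f).scaleRoots D).map (algebraMap k[X] K)) := by
    rw [hscale]
    exact TS.irr_scale hDK hirrK
  obtain ⟨md, hsmS⟩ := TS.smooth_scale
    (Pool.Agent.Y179.T7.st_smooth 2 k _ hp2 (by exact_mod_cast h2) (TS.tower_graph 2 f)) hD
  obtain ⟨hg, hℓk⟩ := SH.good_of hp2 (Nat.succ_pos 0) (pow_one 2).symm hT hζ hmonS hcopS hsepS
  -- the field
  obtain ⟨iKN, hcov⟩ := exists_cover (k := k) K hd
  letI : Algebra K (Cov k) := iKN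
  letI : Algebra K (Nt k) := iKN
  have hcovN : ∀ g : k[X], algebraMap K (Nt k) (algebraMap k[X] K g) =
    algebraMap (Rg k) (Nt k) (g.comp f : k[X]) := hcov
  letI : Algebra k[X] (Rg k) := RingHom.toAlgebra (compRingHom f : k[X] →+* k[X])
  letI : Algebra k[X] (Nt k) := ((algebraMap K (Nt k)).comp (algebraMap k[X] K)).toAlgebra
  haveI : IsScalarTower k[X] K (Nt k) := IsScalarTower.of_algebraMap_eq fun _ => rfl
  haveI : IsScalarTower k[X] (Rg k) (Nt k) := IsScalarTower.of_algebraMap_eq fun g => hcovN g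
  -- the generator
  let xR : Rg k := (X : k[X])
  have hevR : ∀ P : k[X][X], aeval xR P = ((eval₂ (compRingHom f : k[X] →+* k[X]) X P : k[X]) : Rg k) :=
    fun P => rfl
  have hsurj : ∀ r : Rg k, ∃ P : k[X][X], aeval xR P = r := fun r =>
    ⟨Polynomial.map C (show k[X] from r), (hevR _).trans (eval_lift f r)⟩
  have hrootR : aeval xR (graph f) = 0 := (hevR _).trans (eval_graph f)
  haveI : Algebra.IsIntegral k[X] (Rg k) := by
    refine ⟨fun z => ?_⟩
    obtain ⟨P, rfl⟩ := hsurj z
    have hx : IsIntegral k[X] xR := ⟨graph f, hmG, hrootR⟩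
    exact adjoin_le_integralClosure hx (aeval_mem_adjoin_singleton k[X] xR)
  let θ0 : Nt k := algebraMap (Rg k) (Nt k) xR
  have hθev : ∀ P : k[X][X], aeval θ0 (P.map (algebraMap k[X] K)) =
      algebraMap (Rg k) (Nt k) (aeval xR P) := by
    intro P
    rw [aeval_map_algebraMap, aeval_algebraMap_apply]
  have hθ0 : aeval θ0 ((graph f).map (algebraMap k[X] K)) = 0 := by
    rw [hθev, hrootR, map_zero]
  have htop0 : IntermediateField.adjoin K {θ0} = ⊤ := by
    rw [eq_top_iff]
    rintro z -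
    have hR : ∀ r : Rg k, algebraMap (Rg k) (Nt k) r ∈ IntermediateField.adjoin K {θ0} := by
      intro r
      obtain ⟨P, rfl⟩ := hsurj r
      rw [← hθev]
      exact IntermediateField.algebra_adjoin_le_adjoin K {θ0}
        (aeval_mem_adjoin_singleton K θ0)
    obtain ⟨a, b, hb, rfl⟩ := IsFractionRing.div_surjective (A := Rg k) z
    exact div_mem (hR a) (hR b)
  have hDN : algebraMap K (Nt k) (algebraMap k[X] K D) ≠ 0 := (_root_.map_ne_zero _).2 hDK
  set θ : Nt k := algebraMap K (Nt k) (algebraMap k[X] K D) * θ0 with hθdef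
  have hθ : aeval θ (((graph f).scaleRoots D).map (algebraMap k[X] K)) = 0 := by
    rw [hscale]
    exact scaleRoots_aeval_eq_zero hθ0
  have hNtop : IntermediateField.adjoin K {θ} = ⊤ := by
    rw [eq_top_iff, ← htop0, IntermediateField.adjoin_simple_le_iff]
    have h1 := IntermediateField.mem_adjoin_simple_self K θ
    have h2 := mul_mem (inv_mem (IntermediateField.algebraMap_mem
      (IntermediateField.adjoin K {θ}) (algebraMap k[X] K D))) h1
    rwa [hθdef, inv_mul_cancel_left₀ hDN] at h2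
  -- the embedding
  obtain ⟨i⟩ := SH.exists_emb hT hmonS hsepS hθ hNtop
  letI : Algebra (Nt k) (Sep F) := i.toRingHom.toAlgebra
  haveI : IsScalarTower K (Nt k) (Sep F) := IsScalarTower.of_algebraMap_eq fun x => (i.commutes x).symm
  haveI := hT.sep
  haveI : IsSepClosure K (Sep F) := Pool.Agent.TH115.GD.sepKΩ hT.map
  haveI : Algebra.IsSeparable K (Sep F) := IsSepClosure.separable
  haveI : IsGalois K (Sep F) := inferInstance
  obtain ⟨j⟩ : Nonempty (Sep K ≃ₐ[K] Sep F) := ⟨IsSepClosure.equiv K (Sep K) (Sep F)⟩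
  have haR : Rt (((graph f).scaleRoots D).map (algebraMap k[X] K)) (algebraMap (Nt k) (Sep F) θ) := by
    have h1 : aeval (algebraMap (Nt k) (Sep F) θ)
        (((graph f).scaleRoots D).map (algebraMap k[X] K)) = 0 := by
      rw [aeval_algebraMap_apply, hθ, map_zero]
    exact h1
  -- the data
  have key : ∀ c : (Sep K ≃ₐ[K] Sep K) →
      Jac 2 (((graph f).scaleRoots D).map (algebraMap k[X] K)) (Sep K),
      ∃ (t : Sep F) (z : Cov k) (h s : k[X]), IsSel k[X] _ c →
        t ≠ 0 ∧ t ^ 2 = algebraMap (Nt k) (Sep F) z ∧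
        (∀ τ : Sep F ≃ₐ[K] Sep F, τ (algebraMap (Nt k) (Sep F) θ) = algebraMap (Nt k) (Sep F) θ →
          τ t = chi hg (algebraMap (Nt k) (Sep F) θ) (SH.tr j c τ) * t) ∧
        (∃ y : K, Algebra.norm K (algebraMap k[X] (Cov k) h) = y ^ 2) ∧ h ≠ 0 ∧ s ≠ 0 ∧
        z * algebraMap k[X] (Cov k) s ^ 2 = algebraMap k[X] (Cov k) h ∧
        EvenOff (D.comp f) h := by
    intro c
    by_cases hc : IsSel k[X] _ c
    · have hct : ∀ σ, Tor hg (c σ) := fun σ => (tor_two hyps hg _).2 (hc.two σ)
      obtain ⟨t, z, ht, hz0, hz, hk, hev⟩ := TS.valNS (R := Rg k) hp2 (pow_one 2).symm hyps lhyps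
        Pool.Agent.Y141.SH.stShaLoc hT hg hmonS hℓk hsmS hθ hNtop c hc.coc hct hc.loc j
      have hmul := SH.tr_mul j hc.coc
      have hg2 : ∀ τ, Tor hg (SH.tr j c τ) := fun τ => (hct _).map _
      obtain ⟨y, hy⟩ := Pool.Agent.Y474.SH.stShaN 2 K (Nt k) (Sep F) _ _ hg hyps hirrKS _ θ haR rfl
        hNtop _ hmul hg2 t z ht hz hk
      obtain ⟨h, s, hh, hs, e, hE⟩ := exists_poly_cov (A := D.comp f) (z := z) hz0
        (fun v hv => hev v hv)
      exact ⟨t, z, h, s, fun _ => ⟨ht, hz, hk, norm_cov e hy, hh, hs, e, hE⟩⟩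
    · exact ⟨0, 0, 0, 0, fun h => absurd h hc⟩
  choose t z h s hdata using key
  obtain ⟨r, hr⟩ := exists_choice (K := K) (L := Cov k) hcov hm hd hD
  refine ⟨others f D r, fun c => (others f D r).filter fun R => ¬ Even (multiplicity R (h c)),
    card_others fun P hP => (hr P hP).1, fun c => Finset.filter_subset _ _, ?_⟩
  intro c c' hc hc' hcc
  obtain ⟨ht, hz, hk, ⟨y, hy⟩, hh, hs, e, hE⟩ := hdata c hc
  obtain ⟨ht', hz', hk', ⟨y', hy'⟩, hh', hs', e', hE'⟩ := hdata c' hc'
  have hoth : ∀ R ∈ others f D r, Even (multiplicity R (h c * h c')) := by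
    intro R hR
    have hRi : Irreducible R := by
      unfold others at hR
      obtain ⟨P, hP, hRP⟩ := Finset.mem_biUnion.1 hR
      have hP1 := (mem_primes hD P).1 hP
      exact ((mem_primes (comp_ne hd hP1.2.1.ne_zero) R).1 (Finset.mem_of_mem_erase hRP)).2.1
    rw [mult_mul hRi hh hh', Nat.even_add]
    have h1 : R ∈ (others f D r).filter (fun R => ¬ Even (multiplicity R (h c))) ↔
        R ∈ (others f D r).filter (fun R => ¬ Even (multiplicity R (h c'))) := by
      have hcc' : (others f D r).filter (fun R => ¬ Even (multiplicity R (h c))) =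
        (others f D r).filter (fun R => ¬ Even (multiplicity R (h c'))) := hcc
      rw [hcc']
    rw [Finset.mem_filter, Finset.mem_filter] at h1
    tauto
  obtain ⟨G, hG⟩ := square_of (K := K) (L := Cov k) hcov hm hd hD hr (mul_ne_zero hh hh')
    (hE.mul hE') (s := y * y') (by rw [map_mul, map_mul, hy, hy', mul_pow]) hoth
  have hsL : algebraMap k[X] (Cov k) (s c) ≠ 0 := (map_ne_zero_iff _ (inj_frac (Cov k))).2 hs
  have hsL' : algebraMap k[X] (Cov k) (s c') ≠ 0 := (map_ne_zero_iff _ (inj_frac (Cov k))).2 hs'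
  have h9 : z c * z c' = (algebraMap k[X] (Cov k) G / (algebraMap k[X] (Cov k) (s c) *
      algebraMap k[X] (Cov k) (s c'))) ^ 2 := by
    rw [div_pow, eq_div_iff (pow_ne_zero 2 (mul_ne_zero hsL hsL')), ← map_pow, ← hG, map_mul, ← e,
      ← e']
    ring
  exact cob_of_prod hyps hg hirrKS haR rfl hNtop j hc.coc hc'.coc
    (fun σ => (tor_two hyps hg _).2 (hc.two σ)) (fun σ => (tor_two hyps hg _).2 (hc'.two σ))
    ht ht' hz hz' hk hk' h9

end main

end Pool.Agent.X261.SM
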