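import Pool.Agent.X261.TS.Crit

/-!
Cocycles with values in the elements of order two: two of them are cohomologous if the product of
their Kummer generators is a square.
-/

set_option autoImplicit false
set_option linter.all false

open Polynomial IsDedekindDomain WithZero
open scoped nonZeroDivisors Classical

namespace Pool.Agent.X261.SM

open Pool.Agent.Y160.SQ Pool.Agent.Y160.SH
open Pool.Agent.TH115.GD (incl rs ak Sep Comp IsTower lift_fix)

section two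

variable {K Ω : Type} [Field K] [Field Ω] [Algebra K Ω] {f : K[X]} {ζ : K} (H : Hyps)
  (hg : Good 2 ζ f)

include H in
theorem tor_two (x : Jac 2 f Ω) : Tor hg x ↔ 2 • x = 0 := by
  have h1 : pe hg Ω ((2 : ℕ) : ℤ[X]) x = pe hg Ω (1 - X) x + pe hg Ω (nrm 2) x := by
    rw [← pe_add]
    congr 2
    unfold nrm
    rw [Finset.sum_range_succ, Finset.sum_range_one]
    push_cast
    ring
  rw [pe_nat, pe_nrm H hg, add_zero] at h1
  unfold Tor
  rw [h1]

end two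

section inj

variable {K N Ω Ω' : Type} [Field K] [Field N] [Field Ω] [Field Ω'] [Algebra K N] [Algebra N Ω']
  [Algebra K Ω] [Algebra K Ω'] [IsScalarTower K N Ω'] [IsGalois K Ω] [IsGalois K Ω']
  [IsSepClosed Ω'] {f : K[X]} {ζ : K} (H : Hyps) (hg : Good 2 ζ f)

include H

/-- Two cocycles whose generators have a square as product are cohomologous. -/
theorem cob_of_prod (hirr : Irreducible f) {θ : N} {a : Ω'} (ha : Rt f a)
    (hθ : algebraMap N Ω' θ = a) (hNtop : IntermediateField.adjoin K {θ} = ⊤)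
    (j : Ω ≃ₐ[K] Ω') {c c' : (Ω ≃ₐ[K] Ω) → Jac 2 f Ω} (hc : IsCoc 2 f c) (hc' : IsCoc 2 f c')
    (h2 : ∀ σ, Tor hg (c σ)) (h2' : ∀ σ, Tor hg (c' σ))
    {t t' : Ω'} {z z' : N} (ht : t ≠ 0) (ht' : t' ≠ 0) (hz : t ^ 2 = algebraMap N Ω' z)
    (hz' : t' ^ 2 = algebraMap N Ω' z')
    (hk : ∀ τ : Ω' ≃ₐ[K] Ω', τ a = a → τ t = chi hg a (tr j c τ) * t)
    (hk' : ∀ τ : Ω' ≃ₐ[K] Ω', τ a = a → τ t' = chi hg a (tr j c' τ) * t')
    {g : N} (hgz : z * z' = g ^ 2) :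
    ∃ R : Jac 2 f Ω, 2 • R = 0 ∧ ∀ σ, c σ - c' σ = jm 2 f (rs K σ) R - R := by
  have hT : ∀ τ, Tor hg (tr j c τ) := fun τ => (h2 _).map _
  have hT' : ∀ τ, Tor hg (tr j c' τ) := fun τ => (h2' _).map _
  have h1 : (t * t') ^ 2 = (algebraMap N Ω' g) ^ 2 := by
    rw [mul_pow, hz, hz', ← map_mul, hgz, map_pow]
  have h3 : ∃ g' : N, t * t' = algebraMap N Ω' g' := by
    rcases sq_eq_sq_iff_eq_or_eq_neg.1 h1 with h | h
    · exact ⟨g, h⟩
    · exact ⟨-g, by rw [h, map_neg]⟩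
  obtain ⟨g', hg'⟩ := h3
  have htt : t * t' ≠ 0 := mul_ne_zero ht ht'
  have hprod : ∀ τ : Ω' ≃ₐ[K] Ω', τ a = a →
      chi hg a (tr j c τ) * chi hg a (tr j c' τ) = 1 := by
    intro τ hτ
    obtain ⟨τ', hτ'⟩ := lift_fix hNtop τ (by rw [hθ]; exact hτ)
    have h4 : τ (t * t') = t * t' := by
      rw [hg', ← hτ', AlgEquiv.commutes]
    rw [map_mul, hk τ hτ, hk' τ hτ] at h4
    apply mul_right_cancel₀ htt
    rw [one_mul]
    linear_combination h4
  have hdiff : ∀ τ : Ω' ≃ₐ[K] Ω', τ a = a → chi hg a (tr j c τ - tr j c' τ) = 1 := by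
    intro τ hτ
    rw [chi_sub H hg (hT τ) (hT' τ) ha]
    have h5 := hprod τ hτ
    have h6 := chi_pow H hg (hT' τ) ha
    have h7 := chi_ne H hg (hT' τ) ha
    rw [div_eq_one_iff_eq h7]
    apply mul_right_cancel₀ h7
    rw [h5, ← h6]
    ring
  have hirrK : Irreducible (f.map (algebraMap K K)) := by
    rw [Algebra.algebraMap_self, Polynomial.map_id]
    exact hirr
  have hmul : ∀ σ τ : Ω' ≃ₐ[K] Ω', tr j c (σ * τ) - tr j c' (σ * τ) =
      (tr j c σ - tr j c' σ) + jm 2 f (rs K σ) (tr j c τ - tr j c' τ) := by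
    intro σ τ
    rw [tr_mul j hc, tr_mul j hc', map_sub]
    have e1 : jm 2 f (rs K σ) (tr j c τ) = jm 2 f (ak σ) (tr j c τ) := rfl
    have e2 : jm 2 f (rs K σ) (tr j c' τ) = jm 2 f (ak σ) (tr j c' τ) := rfl
    rw [e1, e2]
    abel
  obtain ⟨R, hR, hR'⟩ := cob1 (F := K) H hg hirrK ha hmul (fun σ => (hT σ).sub (hT' σ)) hdiff
  have hR2 : 2 • R = 0 := (tor_two H hg R).1 hR
  refine ⟨jm 2 f (j.symm : Ω' →ₐ[K] Ω) R, by rw [← map_nsmul, hR2, map_zero], fun σ => ?_⟩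
  have h8 := hR' ((j.symm.trans σ).trans j)
  have e1 : cj j ((j.symm.trans σ).trans j) = σ := by
    apply AlgEquiv.ext
    intro x
    show j.symm (j (σ (j.symm (j x)))) = σ x
    rw [AlgEquiv.symm_apply_apply, AlgEquiv.symm_apply_apply]
  unfold tr at h8
  rw [e1] at h8
  have h8' : jm 2 f (j : Ω →ₐ[K] Ω') (c σ - c' σ) =
      jm 2 f (rs K ((j.symm.trans σ).trans j)) R - R := by
    rw [map_sub]
    exact h8
  have h9 := congrArg (jm 2 f (j.symm : Ω' →ₐ[K] Ω)) h8'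
  rw [map_sub (jm 2 f (j.symm : Ω' →ₐ[K] Ω)) (jm 2 f (rs K ((j.symm.trans σ).trans j)) R)] at h9
  rw [jm_jm, jm_jm] at h9
  have e2 : ((j.symm : Ω' →ₐ[K] Ω).comp (j : Ω →ₐ[K] Ω')) = AlgHom.id K Ω := by
    apply AlgHom.ext
    intro x
    show j.symm (j x) = x
    rw [AlgEquiv.symm_apply_apply]
  have e3 : ((j.symm : Ω' →ₐ[K] Ω).comp (rs K ((j.symm.trans σ).trans j))) =
      (rs K σ).comp (j.symm : Ω' →ₐ[K] Ω) := by
    apply AlgHom.ext
    intro x
    show j.symm (j (σ (j.symm x))) = σ (j.symm x)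
    rw [AlgEquiv.symm_apply_apply]
  rw [e2, jm_id, e3] at h9
  rw [h9, jm_jm]

end inj

end Pool.Agent.X261.SM
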